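import Mathlib
import Pool.Agent.Helper21_R3.Kit

/-!
# OVC: cutting a state over a perfect matching (row of table r3, paper: PAPER_R3B.md)
-/

set_option autoImplicit false

namespace Pool.Agent.R3.H81

open Pool.Agent.R3 Pool.Agent.R3.Kit

theorem ovc (fdr : FdrStmt) : OvcStmt := by
  intro V _ _ σ b c d hc P l z y v hP
  generalize hn : nu l = n
  induction n using Nat.strong_induction_on generalizing l z with
  | _ n ih =>
    intro hO hv hlv
    rcases eq_or_ne v z with rfl | hvz
    · exact ⟨l, hO⟩
    have hlv' : l v ≠ 0 := hlv.resolve_right hvz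
    obtain ⟨h1, h2, h3⟩ := hO
    have hzy : z ≠ y := by
      rintro rfl
      rw [ret_neg] at h2
      rw [h2] at hlv'
      exact hlv' hv
    obtain ⟨p, hpz, hp⟩ := np_cov h1 hzy
    have hlp : l p ≠ 0 := np_p hc.s0 hpz hp
    have hPz : P z = 0 := by
      by_contra h
      have h4 := h3 z h
      rw [h1.1] at h4
      exact h h4.symm
    have hPp : P p = 0 := by
      by_contra h
      have h4 : ph σ P p = ph σ P z := by
        rw [ph_zero hc.s0 hPz]
        unfold ph
        rw [← h3 p h]
        exact hp
      exact hpz (hP h4)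
    have hO' : Over σ P (Function.update l p 0) p y := by
      refine ⟨np_row hc.s0 h1 hzy hpz hp, ?_, ?_⟩
      · rw [(fdr V σ b c d hc (fun _ => 0) l z y p h1 hzy hpz hp).2, h2]
      · intro u hu
        have hup : u ≠ p := fun h => hu (h ▸ hPp)
        rw [Function.update_of_ne hup]
        exact h3 u hu
    rcases eq_or_ne v p with rfl | hvp
    · exact ⟨_, hO'⟩
    · refine ih (nu (Function.update l p 0)) (by rw [← hn]; exact nu_lt hlp)
        (Function.update l p 0) p rfl hO' hv (Or.inl ?_)
      rw [Function.update_of_ne hvp]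
      exact hlv'

end Pool.Agent.R3.H81
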